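import Mathlib
import Pool.Agent.N824.C2.CurvM2

/-!
# Morse functions with restricted indices from coarse functions

A closed 4-manifold has a handle decomposition without 1-handles if and only if it has a Morse
function without critical points of index 1 (the conclusion of the frozen statement `S14201`).

Let `G` be an open set of bilinear forms on `ℝⁿ`, invariant under linear changes of coordinates, for
instance the forms which are nondegenerate with index in a given set; for `n = 4` the condition of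
the frozen statement on the Hessians defines such a set `NoOne`. The theorem characterizes the
closed manifolds `X` of dimension `n` which have a smooth function `F : X → ℝ` with all Hessians at
the critical points in `G`: this is the case if and only if `X` has *coarse* functions of this kind.
That is, for arbitrarily small scales `r` (all `r` in a set `S` accumulating at `0`) there are
functions `f r : X → ℝ` with the following property. They need not be continuous, they are unrelated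
for different `r`, and nothing is assumed about `f r` at scales different from `r`. Near each point
`x` there is a smooth parametrization `A` of `X`, `κ`-bi-Lipschitz for some function `d(x, y)`, such
that for all `p` near `0` the function `f r ∘ A` is, on the ball of radius `κ² r` about `p`, *in the
mean* within `δ r²` of a quadratic function with first derivative `L` and second derivative `Q` at
`p`, where `(1 + ‖L‖ + ‖Q‖) r ≤ δ τ(r)` with `τ(r) → 0`, and for all `L'`, `Q'` with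
`‖L' - L‖` and `‖Q' - Q‖` at most `C κ^(2n+4) δ` either `L' ≠ 0` or `Q' ∈ G`. Here `L`, `Q`, `δ` depend on
`p` and `r` in any way and `C` is any sufficiently large constant which depends on `n` only. No
critical points are given, and their number and position may change with `r`.
-/

set_option autoImplicit false

open Set Filter Topology Metric MeasureTheory Function
open scoped Manifold ContDiff InnerProductSpace

noncomputable section

namespace Pool.Agent.Results.MP_f18604_gt.CoarseIndices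

/-- `ℝᵐ` -/
abbrev R (m : ℕ) := EuclideanSpace ℝ (Fin m)

/-- Lebesgue measure on `ℝᵐ` -/
def vol (m : ℕ) : Measure (R m) := volume

/-! In the following definitions `V = ℝⁿ` is the model space of `X`. -/

section

variable {V : Type} [NormedAddCommGroup V] [InnerProductSpace ℝ V] [FiniteDimensional ℝ V]

/-- `G` is an open set of bilinear forms on `V`, invariant under linear changes of coordinates. -/
def OpenInvariant (G : Set (V →L[ℝ] V →L[ℝ] ℝ)) : Prop :=
  IsOpen G ∧ ∀ (T : V ≃L[ℝ] V) (Q Q' : V →L[ℝ] V →L[ℝ] ℝ), (∀ u v, Q u v = Q' (T u) (T v)) →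
    Q ∈ G → Q' ∈ G

/-- the condition of the frozen statement `S14201` on the Hessian at a critical point (`V = ℝ⁴`):
it is nondegenerate of index different from `1` -/
def NoOne (V : Type) [NormedAddCommGroup V] [InnerProductSpace ℝ V] :
    Set (V →L[ℝ] V →L[ℝ] ℝ) :=
  {Q | (∀ v, (∀ w, Q v w = 0) → v = 0) ∧
    ((∀ v, v ≠ 0 → 0 < Q v v) ∨
      ∃ H : Submodule ℝ V, Module.finrank ℝ H = 2 ∧ ∀ v ∈ H, v ≠ 0 → Q v v < 0)}

/-- `L` and `Q` are the derivatives of a function at a point which is not critical, or critical with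
Hessian in `G`. -/
def MorseJet (G : Set (V →L[ℝ] V →L[ℝ] ℝ)) (L : V →L[ℝ] ℝ) (Q : V →L[ℝ] V →L[ℝ] ℝ) : Prop :=
  L = 0 → Q ∈ G

/-- `Q` is symmetric -/
def Symm (Q : V →L[ℝ] V →L[ℝ] ℝ) : Prop := ∀ u v, Q u v = Q v u

/-- all derivatives at distance at most `b` from `L` and `Q` satisfy `MorseJet` -/
def MorseMargin (G : Set (V →L[ℝ] V →L[ℝ] ℝ)) (b : ℝ) (L : V →L[ℝ] ℝ)
    (Q : V →L[ℝ] V →L[ℝ] ℝ) : Prop :=
  ∀ (L' : V →L[ℝ] ℝ) (Q' : V →L[ℝ] V →L[ℝ] ℝ), Symm Q' → ‖L' - L‖ ≤ b → ‖Q' - Q‖ ≤ b →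
    MorseJet G L' Q'

/-- the quadratic function with the value `c` and the derivatives `L` and `Q` at `p` -/
def quad (c : ℝ) (L : V →L[ℝ] ℝ) (Q : V →L[ℝ] V →L[ℝ] ℝ) (p s : V) : ℝ :=
  c + L (s - p) + (1 / 2 : ℝ) • Q (s - p) (s - p)

/-- `h` is integrable on the ball of radius `a` about `p` and its distance to a quadratic function
with the derivatives `L` and `Q` at `p` has integral at most `b` over this ball. -/
def QuadInMean [MeasurableSpace V] (μ : Measure V) (h : V → ℝ) (p : V) (a b : ℝ)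
    (L : V →L[ℝ] ℝ) (Q : V →L[ℝ] V →L[ℝ] ℝ) : Prop :=
  IntegrableOn h (closedBall p a) μ ∧
    ∃ c : ℝ, ∫ q in closedBall p a, ‖h q - quad c L Q p q‖ ∂μ ≤ b

variable {X : Type} [TopologicalSpace X] [ChartedSpace V X]

/-- the function `F` in the preferred chart at `x` -/
def loc (V : Type) [NormedAddCommGroup V] [InnerProductSpace ℝ V] [ChartedSpace V X]
    (F : X → ℝ) (x : X) : V → ℝ :=
  F ∘ (extChartAt 𝓘(ℝ, V) x).symm

/-- `F` is smooth and its Hessians at the critical points (in the preferred charts) are in `G`. -/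
def MorseFunction (G : Set (V →L[ℝ] V →L[ℝ] ℝ)) (F : X → ℝ) : Prop :=
  ContMDiff 𝓘(ℝ, V) 𝓘(ℝ, ℝ) ∞ F ∧
    ∀ x : X, fderiv ℝ (loc V F x) (extChartAt 𝓘(ℝ, V) x x) = 0 →
      fderiv ℝ (fderiv ℝ (loc V F x)) (extChartAt 𝓘(ℝ, V) x x) ∈ G

/-- `A` is a smooth parametrization near `x = A 0` -/
def Param (A : V → X) (x : X) : Prop :=
  A 0 = x ∧ IsLocalDiffeomorphAt 𝓘(ℝ, V) 𝓘(ℝ, V) ∞ A 0

/-- `A` is `κ`-bi-Lipschitz for `d` on the ball of radius `ρ`. -/
def BiLip (d : X → X → ℝ) (A : V → X) (κ ρ : ℝ) : Prop :=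
  1 ≤ κ ∧ 0 < ρ ∧ ∀ p q : V, ‖p‖ < ρ → ‖q‖ < ρ →
    d (A p) (A q) ≤ κ * ‖p - q‖ ∧ ‖p - q‖ ≤ κ * d (A p) (A q)

/-- the functions `f r` are coarse Morse functions at `x`, each one at its scale `r ∈ S`; `n` is the
dimension of `X` -/
def CoarseAt [MeasurableSpace V] (n : ℕ) (μ : Measure V) (G : Set (V →L[ℝ] V →L[ℝ] ℝ)) (C : ℝ)
    (d : X → X → ℝ) (S : Set ℝ) (f : ℝ → X → ℝ) (x : X) : Prop :=
  ∃ (A : V → X) (κ ρ : ℝ) (τ : ℝ → ℝ), Param A x ∧ BiLip d A κ ρ ∧ Tendsto τ (𝓝[>] 0) (𝓝 0) ∧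
    ∀ p, ‖p‖ < ρ → ∀ r ∈ S, 0 < r → r < ρ →
      ∃ (L : V →L[ℝ] ℝ) (Q : V →L[ℝ] V →L[ℝ] ℝ) (δ : ℝ), 0 ≤ δ ∧ Symm Q ∧
        (1 + ‖L‖ + ‖Q‖) * r ≤ δ * τ r ∧
        QuadInMean μ (fun z => f r (A z)) p (κ ^ 2 * r) (δ * r ^ (n + 2)) L Q ∧
        MorseMargin G (C * κ ^ (2 * n + 4) * δ) L Q

/-- `X` has coarse Morse functions -/
def HasCoarse [MeasurableSpace V] (n : ℕ) (μ : Measure V) (G : Set (V →L[ℝ] V →L[ℝ] ℝ)) (C : ℝ)
    (X : Type) [TopologicalSpace X] [ChartedSpace V X] : Prop :=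
  ∃ (d : X → X → ℝ) (S : Set ℝ) (f : ℝ → X → ℝ), (0 : ℝ) ∈ closure (S ∩ Ioi 0) ∧
    ∀ x, CoarseAt n μ G C d S f x

end

theorem noOne_openInvariant : OpenInvariant (NoOne (R 4)) := by
  constructor
  · rw [isOpen_iff_mem_nhds]
    rintro Q ⟨h1, h2⟩
    have hinj : Injective Q := by
      refine (injective_iff_map_eq_zero _).2 fun v hv => h1 v fun w => ?_
      rw [hv, zero_apply]
    have k1 : ∀ᶠ Q' : R 4 →L[ℝ] R 4 →L[ℝ] ℝ in 𝓝 Q, ∀ v, (∀ w, Q' v w = 0) → v = 0 := by
      have : ∀ᶠ Q' : R 4 →L[ℝ] R 4 →L[ℝ] ℝ in 𝓝 Q, Injective Q' :=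
        (ContinuousLinearMap.isOpen_injective (𝕜 := ℝ)).mem_nhds hinj
      filter_upwards [this] with Q' hQ' v hv
      refine (injective_iff_map_eq_zero _).1 hQ' v ?_
      ext w
      rw [hv w, zero_apply]
    rcases h2 with h2 | ⟨H, h2, h3⟩
    · have k2 := Pool.Agent.N824.C2.def_ev (⊤ : Submodule ℝ (R 4)) (Q := Q)
        (fun v _ hv => h2 v hv)
      filter_upwards [k1, k2] with Q' m1 m2
      exact ⟨m1, Or.inl fun v hv => m2 v trivial hv⟩
    · filter_upwards [k1, Pool.Agent.N824.C2.def_ev' H h3] with Q' m1 m2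
      exact ⟨m1, Or.inr ⟨H, h2, m2⟩⟩
  · rintro T Q Q' hQ ⟨h1, h2⟩
    refine ⟨fun v hv => ?_, ?_⟩
    · have h3 := h1 (T.symm v) fun w => by
        rw [hQ, T.apply_symm_apply]
        exact hv _
      have h4 := congrArg T h3
      rwa [T.apply_symm_apply, map_zero] at h4
    · rcases h2 with h2 | ⟨H, h2, h3⟩
      · left
        intro v hv
        have h4 := h2 (T.symm v) (fun h => hv (by
          have h5 := congrArg T h
          rwa [T.apply_symm_apply, map_zero] at h5))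
        rwa [hQ, T.apply_symm_apply] at h4
      · right
        refine ⟨H.map (T.toLinearEquiv : R 4 →ₗ[ℝ] R 4), ?_, ?_⟩
        · rw [← h2]
          exact LinearEquiv.finrank_map_eq T.toLinearEquiv H
        · rintro _ ⟨v, hv, rfl⟩ hv0
          have hv0' : v ≠ 0 := by
            rintro rfl
            exact hv0 (map_zero _)
          have := h3 v hv hv0'
          rw [hQ] at this
          exact this

/-- the preferred chart as a parametrization -/
theorem chart_param {n : ℕ} {X : Type} [TopologicalSpace X] [ChartedSpace (R n) X]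
    [IsManifold (𝓡 n) ∞ X] (x : X) :
    Pool.Agent.Y522.LD n (extChartAt (𝓡 n) x).symm (extChartAt (𝓡 n) x x) := by
  obtain ⟨c, hc⟩ : ∃ c, c = chartAt (R n) x := ⟨_, rfl⟩
  have hcs : x ∈ c.source := by rw [hc]; exact mem_chart_source _ _
  have hc1 : ContMDiffOn (𝓡 n) (𝓡 n) ∞ c c.source := by
    rw [hc]
    exact contMDiffOn_chart
  have hc2 : ContMDiffOn (𝓡 n) (𝓡 n) ∞ c.symm c.target := by
    rw [hc]
    exact contMDiffOn_chart_symm
  have hLc : Pool.Agent.Y522.LD n (fun z => c.symm z) (c x) :=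
    ⟨{ toPartialEquiv := c.symm.toPartialEquiv
       open_source := c.symm.open_source
       open_target := c.symm.open_target
       contMDiffOn_toFun := hc2
       contMDiffOn_invFun := hc1 }, c.map_source hcs, fun _ _ => rfl⟩
  rw [hc] at hLc
  exact hLc

theorem result :
    (∀ n : ℕ, ∃ C₀ : ℝ, ∀ C : ℝ, C₀ ≤ C → ∀ G, OpenInvariant (V := R n) G →
      ∀ (X : Type) [TopologicalSpace X] [T2Space X] [CompactSpace X] [ChartedSpace (R n) X]
        [IsManifold 𝓘(ℝ, R n) ∞ X],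
        (∃ F : X → ℝ, MorseFunction G F) ↔ HasCoarse n (vol n) G C X) ∧
    OpenInvariant (NoOne (R 4)) := by
  refine ⟨fun n => ?_, noOne_openInvariant⟩
  obtain ⟨C₀, hC₀⟩ := Pool.Agent.N824.C2.main2c n
  refine ⟨C₀, fun C hC G hG X _ _ _ _ _ => ?_⟩
  have hmain := hC₀ C hC ℝ (fun L Q => MorseJet G L Q) (fun L Q _ h => by
    have h0 : ∀ᶠ z : (R n →L[ℝ] ℝ) × (R n →L[ℝ] R n →L[ℝ] ℝ) in 𝓝 (L, Q), MorseJet G z.1 z.2 := by
      by_cases hL : L = 0
      · filter_upwards [(continuous_snd.tendsto (L, Q)).eventually (hG.1.mem_nhds (h hL))] with z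
          hz _
        exact hz
      · have h1 : ∀ᶠ z : (R n →L[ℝ] ℝ) × (R n →L[ℝ] R n →L[ℝ] ℝ) in 𝓝 (L, Q), z.1 ≠ 0 :=
          (continuous_fst.tendsto (L, Q)).eventually_ne hL
        filter_upwards [h1] with z hz h0
        exact absurd h0 hz
    obtain ⟨b, hb, h1⟩ := Pool.Agent.N824.C2.ev_of h0
    exact ⟨b, hb, fun L' Q' _ h2 h3 => h1 L' Q' h2 h3⟩) X
  refine Iff.trans ?_ (hmain.trans ?_)
  · constructor
    · rintro ⟨F, h1, h2⟩
      refine ⟨F, h1, fun x => ?_⟩
      have hA : Pool.Agent.Y522.LD n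
          (fun z => (extChartAt (𝓡 n) x).symm (z + extChartAt (𝓡 n) x x)) 0 := by
        have h3 := chart_param (n := n) x
        have h4 : Pool.Agent.Y522.LD n (extChartAt (𝓡 n) x).symm
            ((fun z : R n => z + extChartAt (𝓡 n) x x) 0) := by
          show Pool.Agent.Y522.LD n (extChartAt (𝓡 n) x).symm (0 + extChartAt (𝓡 n) x x)
          rw [zero_add]
          exact h3
        have h5 : Pool.Agent.Y522.LD n (fun z : R n => z + extChartAt (𝓡 n) x x) 0 :=
          Pool.Agent.Y522.LD_add_const (extChartAt (𝓡 n) x x) 0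
        exact Pool.Agent.Y522.LD.comp_fun (f := fun z : R n => z + extChartAt (𝓡 n) x x)
          (x := (0 : R n)) h4 h5
      refine ⟨_, ?_, hA, ?_⟩
      · simp
      · have h5 := Pool.Agent.N824.C2.jets_add (n := n) (W := ℝ) (loc (R n) F x)
          (extChartAt (𝓡 n) x x)
        intro h6
        have e1 : (fun z => F ((extChartAt (𝓡 n) x).symm (z + extChartAt (𝓡 n) x x))) =
            fun z => loc (R n) F x (z + extChartAt (𝓡 n) x x) := rfl
        rw [e1] at h6 ⊢
        rw [h5.1] at h6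
        rw [h5.2]
        exact h2 x h6
    · rintro ⟨F, h1, h2⟩
      refine ⟨F, h1, fun x h0 => ?_⟩
      obtain ⟨A, k1, k2, k3⟩ := h2 x
      obtain ⟨T, j1, j2⟩ := Pool.Agent.N824.C2.jet_change (n := n) (F := F) (x := x) (h1 x)
        (A := (extChartAt (𝓡 n) x).symm) (A' := A) (extChartAt_to_inv x) (chart_param x) k1 k2
      have e1 : (fun z => F ((extChartAt (𝓡 n) x).symm z)) = loc (R n) F x := rfl
      rw [e1] at j1 j2
      refine hG.2 T _ _ (j2 h0) (k3 ?_)
      rw [j1, h0, ContinuousLinearMap.zero_comp]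
  · constructor
    · rintro ⟨d, S, f, h1, h2⟩
      refine ⟨d, S, f, h1, fun x => ?_⟩
      obtain ⟨A, κ, ρ, τ, k1, k2, k3, k4, k5, k6, k7⟩ := h2 x
      refine ⟨A, κ, ρ, τ, ⟨k1, k2⟩, ⟨k3, k4, k6⟩, k5, fun p hp r hr h0 hrρ => ?_⟩
      obtain ⟨L, Q, δ, c, m1, m2, m3, ⟨m4, m5⟩, m6⟩ := k7 p hp r hr h0 hrρ
      exact ⟨L, Q, δ, m1, m2, m3, ⟨m4, c, m5⟩, m6⟩
    · rintro ⟨d, S, f, h1, h2⟩
      refine ⟨d, S, f, h1, fun x => ?_⟩
      obtain ⟨A, κ, ρ, τ, ⟨k1, k2⟩, ⟨k3, k4, k6⟩, k5, k7⟩ := h2 x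
      refine ⟨A, κ, ρ, τ, k1, k2, k3, k4, k5, k6, fun p hp r hr h0 hrρ => ?_⟩
      obtain ⟨L, Q, δ, m1, m2, m3, ⟨m4, c, m5⟩, m6⟩ := k7 p hp r hr h0 hrρ
      exact ⟨L, Q, δ, c, m1, m2, m3, ⟨m4, m5⟩, m6⟩

end Pool.Agent.Results.MP_f18604_gt.CoarseIndices
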