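import Pool.Agent.N824.CS.Glob

/-!
# Coarse Morse functions on closed 4-manifolds

A closed 4-manifold has a handle decomposition without 1-handles if and only if it has a Morse
function without critical points of index 1 (the conclusion of the frozen statement). Here it is
proved that a *coarse* function is enough, and that in general coarse functions can be replaced by
smooth ones without creating critical points.

Let `M` be a closed smooth 4-manifold with a metric, `F` a smooth function on an open set `U` whose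
critical points lie in a closed set `Z ⊆ U` (for instance the Morse models around finitely many
points, of any indices; no nondegeneracy is assumed). Suppose that for arbitrarily small scales `r`
(all `r` in a set `S` accumulating at `0`, for instance a sequence) we are given a bounded measurable
function `f r : M → ℝ`, with `f r = F` on `U`, such that every point `x` outside `U` is a coarse
regular point: there is a smooth parametrization `A` around `x`, `κ`-bi-Lipschitz for the metric,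
such that for every point `p` near `0` and every small scale `r ∈ S` there are a direction `u` and a
slope `m > 0` (which may depend on `p` and `r` in any way) such that `h = f r ∘ A` oscillates by at
most `m H(r) r` on the ball of radius `κ² r` about `p`, and `h q' - h q ≥ m (t - ε r)` as soon as
`q' - q` is equal to `t u` up to `r / H(r)` in this ball. Here `κ² ε` is at most a universal
constant and `H` is an arbitrary function with `r H(r) → 0`.

Then there is a smooth function `g : M → ℝ`, equal to `F` near `Z`, whose critical points are exactly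
the critical points of `F` in `Z`. In particular, if the critical points of `F` are nondegenerate of
index `≠ 1` (in the sense of the frozen statement), so are those of `g`, and `M` has a handle
decomposition without 1-handles.

The functions `f r` need not be continuous, need not be close to each other for different scales,
nothing is assumed about `f r` at scales different from `r`, the slopes may tend to `0` or `∞` and
the directions may vary wildly. The case where all `f r` are equal to a Lipschitz function contains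
the Lipschitz functions which are regular in the sense of Clarke outside `U`, for instance distance
functions with their regular points in the sense of Grove and Shiohama.
-/

set_option autoImplicit false

open Set Filter Topology Metric Function
open scoped Manifold ContDiff

namespace Pool.Agent.Results.MP_f18604_gt.CoarseMorse

/-- `ℝ⁴` -/
abbrev R4 := EuclideanSpace ℝ (Fin 4)

section defs

variable {M : Type} [MetricSpace M] [ChartedSpace R4 M]

/-- `f` in the preferred chart at `x` -/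
noncomputable def loc (f : M → ℝ) (x : M) : R4 → ℝ := f ∘ (extChartAt (𝓡 4) x).symm

/-- `x` is a critical point of `f` -/
def Crit (f : M → ℝ) (x : M) : Prop := fderiv ℝ (loc f x) (extChartAt (𝓡 4) x x) = 0

/-- the Hessian of `f` at `x` (in the preferred chart at `x`) -/
noncomputable def hess (f : M → ℝ) (x : M) (v w : R4) : ℝ :=
  fderiv ℝ (fderiv ℝ (loc f x)) (extChartAt (𝓡 4) x x) v w

/-- the condition of the frozen statement on the Hessian of `f` at a critical point `x`: it is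
nondegenerate of index different from `1` -/
def GoodIndex (f : M → ℝ) (x : M) : Prop :=
  (∀ v, (∀ w, hess f x v w = 0) → v = 0) ∧
   ((∀ v, v ≠ 0 → 0 < hess f x v v) ∨
    ∃ V : Submodule ℝ R4, Module.finrank ℝ V = 2 ∧ ∀ v ∈ V, v ≠ 0 → hess f x v v < 0)

/-- `A` is a smooth parametrization of a neighbourhood of `x = A 0`, and it is `κ`-bi-Lipschitz for
the metric of `M` on the ball of radius `ρ` about `0` -/
def Param (A : R4 → M) (κ ρ : ℝ) (x : M) : Prop :=
  A 0 = x ∧ IsLocalDiffeomorphAt (𝓡 4) (𝓡 4) ∞ A 0 ∧ 1 ≤ κ ∧ 0 < ρ ∧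
    ∀ p q : R4, ‖p‖ < ρ → ‖q‖ < ρ →
      dist (A p) (A q) ≤ κ * ‖p - q‖ ∧ ‖p - q‖ ≤ κ * dist (A p) (A q)

/-- `H ≥ 1` is a function of the scale `r` with `r H(r) → 0` as `r → 0` (for instance a constant,
or `r^(-1/2)`) -/
def Slow (H : ℝ → ℝ) : Prop :=
  (∀ r, 1 ≤ H r) ∧ Tendsto (fun r => r * H r) (𝓝[>] 0) (𝓝 0)

/-- `x` is a coarse regular point of the functions `f r`, each one at its scale `r ∈ S` -/
def CoarseRegular (C : ℝ) (S : Set ℝ) (f : ℝ → M → ℝ) (x : M) : Prop :=
  ∃ (A : R4 → M) (κ ε ρ : ℝ) (H : ℝ → ℝ), Param A κ ρ x ∧ 0 ≤ ε ∧ C * (κ ^ 2 * ε) ≤ 1 ∧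
    Slow H ∧ ∀ p : R4, ‖p‖ < ρ → ∀ r ∈ S, 0 < r → r < ρ → ∃ (u : R4) (m : ℝ), ‖u‖ = 1 ∧ 0 < m ∧
      (∀ q, ‖q - p‖ ≤ κ ^ 2 * r → |f r (A q) - f r (A p)| ≤ m * (H r * r)) ∧
      ∀ q q', ‖q - p‖ ≤ κ ^ 2 * r → ‖q' - p‖ ≤ κ ^ 2 * r → ∀ t : ℝ, 0 ≤ t →
        ‖q' - q - t • u‖ ≤ r / H r → m * (t - ε * r) ≤ f r (A q') - f r (A q)

end defs

/-- scalar functions -/
theorem cmu_of {h : R4 → ℝ} {p u : R4} {κ ε H r m : ℝ} (hu : ‖u‖ = 1) (hm : 0 < m)
    (h1 : ∀ q, ‖q - p‖ ≤ κ ^ 2 * r → |h q - h p| ≤ m * (H * r))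
    (h2 : ∀ q q', ‖q - p‖ ≤ κ ^ 2 * r → ‖q' - p‖ ≤ κ ^ 2 * r → ∀ t : ℝ, 0 ≤ t →
      ‖q' - q - t • u‖ ≤ r / H → m * (t - ε * r) ≤ h q' - h q) (ℓ : ℝ →L[ℝ] ℝ) (hℓ : ℓ ≠ 0) :
    ∃ (c : ℝ) (u : R4), 0 < c ∧ ‖u‖ = 1 ∧ Pool.Agent.N824.CS.CMu 4 h p κ ε H r u (c • ℓ) := by
  obtain ⟨a, ha⟩ : ∃ a : ℝ, a = ℓ 1 := ⟨_, rfl⟩
  have hℓy : ∀ y : ℝ, ℓ y = a * y := by
    intro y
    have : ℓ (y • (1 : ℝ)) = y • ℓ 1 := map_smul _ _ _
    rw [smul_eq_mul, mul_one, smul_eq_mul, ← ha] at this
    rw [this, mul_comm]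
  have ha0 : a ≠ 0 := by
    intro h
    apply hℓ
    ext
    rw [hℓy, h]
    simp
  rcases lt_or_gt_of_ne ha0 with ha' | ha'
  · have hk : ∀ y : ℝ, ((1 / (-a * m)) • ℓ) y = -(y / m) := by
      intro y
      rw [smul_apply, hℓy, smul_eq_mul]
      field_simp
    refine ⟨1 / (-a * m), -u, ?_, by rw [norm_neg, hu], ?_, ?_⟩
    · have : 0 < -a := by linarith
      positivity
    · intro q hq
      have h3 := h1 q hq
      have e1 : -(h q / m) - -(h p / m) = -((h q - h p) / m) := by ring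
      rw [hk, hk, e1, abs_neg, abs_div, abs_of_pos hm, div_le_iff₀ hm]
      linarith
    · intro q q' hq hq' t ht hqq
      have h4 : ‖q - q' - t • u‖ ≤ r / H := by
        have e2 : q - q' - t • u = -(q' - q - t • -u) := by
          rw [smul_neg]
          abel
        rw [e2, norm_neg]
        exact hqq
      have h3 := h2 q' q hq' hq t ht h4
      have e1 : -(h q' / m) - -(h q / m) = (h q - h q') / m := by ring
      rw [hk, hk, e1, le_div_iff₀ hm]
      linarith
  · have hk : ∀ y : ℝ, ((1 / (a * m)) • ℓ) y = y / m := by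
      intro y
      rw [smul_apply, hℓy, smul_eq_mul]
      field_simp
    refine ⟨1 / (a * m), u, by positivity, hu, ?_, ?_⟩
    · intro q hq
      have h3 := h1 q hq
      have e1 : h q / m - h p / m = (h q - h p) / m := by ring
      rw [hk, hk, e1, abs_div, abs_of_pos hm, div_le_iff₀ hm]
      linarith
    · intro q q' hq hq' t ht hqq
      have h3 := h2 q q' hq hq' t ht hqq
      have e1 : h q' / m - h q / m = (h q' - h q) / m := by ring
      rw [hk, hk, e1, le_div_iff₀ hm]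
      linarith

/-- charts are local diffeomorphisms -/
theorem LD_extChartAt_symm {M : Type} [TopologicalSpace M] [ChartedSpace R4 M]
    [IsManifold (𝓡 4) ∞ M] (x : M) :
    Pool.Agent.Y522.LD 4 (extChartAt (𝓡 4) x).symm (extChartAt (𝓡 4) x x) := by
  obtain ⟨c, hc⟩ : ∃ c, c = chartAt R4 x := ⟨_, rfl⟩
  have hcs : x ∈ c.source := by rw [hc]; exact mem_chart_source _ _
  have hc1 : ContMDiffOn (𝓡 4) (𝓡 4) ∞ c c.source := by
    rw [hc]
    exact contMDiffOn_chart
  have hc2 : ContMDiffOn (𝓡 4) (𝓡 4) ∞ c.symm c.target := by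
    rw [hc]
    exact contMDiffOn_chart_symm
  have hLc : Pool.Agent.Y522.LD 4 (fun z => c.symm z) (c x) :=
    ⟨{ toPartialEquiv := c.symm.toPartialEquiv
       open_source := c.symm.open_source
       open_target := c.symm.open_target
       contMDiffOn_toFun := hc2
       contMDiffOn_invFun := hc1 }, c.map_source hcs, fun _ _ => rfl⟩
  rw [hc] at hLc
  exact hLc

theorem result : ∃ C : ℝ, 0 < C ∧
    ∀ (M : Type) [MetricSpace M] [CompactSpace M] [MeasurableSpace M] [BorelSpace M]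
      [ChartedSpace R4 M] [IsManifold (𝓡 4) ∞ M]
      (U Z : Set M) (_ : IsOpen U) (_ : IsClosed Z) (_ : Z ⊆ U)
      (F : M → ℝ) (_ : ∀ x ∈ U, ContMDiffAt (𝓡 4) 𝓘(ℝ, ℝ) ∞ F x ∧ (Crit F x → x ∈ Z))
      (S : Set ℝ) (_ : (0 : ℝ) ∈ closure (S ∩ Ioi 0))
      (f : ℝ → M → ℝ) (_ : ∀ r ∈ S, Measurable (f r) ∧ ∃ b : ℝ, ∀ x, |f r x| ≤ b)
      (_ : ∀ r ∈ S, ∀ x ∈ U, f r x = F x)
      (_ : ∀ x, x ∉ U → CoarseRegular C S f x),
      ∃ g : M → ℝ, ContMDiff (𝓡 4) 𝓘(ℝ, ℝ) ∞ g ∧ (∀ x ∈ Z, g =ᶠ[𝓝 x] F) ∧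
        (∀ x, Crit g x ↔ x ∈ Z ∧ Crit F x) ∧
        ((∀ x ∈ U, Crit F x → GoodIndex F x) → ∀ x, Crit g x → GoodIndex g x) := by
  have hC0 : 0 < Pool.Agent.N824.CR.CC 4 := by
    have := Pool.Agent.N824.CR.C1_nonneg 4
    unfold Pool.Agent.N824.CR.CC
    linarith
  refine ⟨Pool.Agent.N824.CR.CC 4, hC0, ?_⟩
  intro M _ _ _ _ _ _ U Z hU hZ hZU F hF S hS f hf hfe hc
  have hLD : ∀ x : M, Pool.Agent.Y522.LD 4 (extChartAt (𝓡 4) x).symm (extChartAt (𝓡 4) x x) :=
    LD_extChartAt_symm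
  have hnear : ∀ (g : M → ℝ) (x : M), g =ᶠ[𝓝 x] F →
      g ∘ (extChartAt (𝓡 4) x).symm =ᶠ[𝓝 (extChartAt (𝓡 4) x x)]
        F ∘ (extChartAt (𝓡 4) x).symm := by
    intro g x h
    have h1 : Tendsto (extChartAt (𝓡 4) x).symm (𝓝 (extChartAt (𝓡 4) x x)) (𝓝 x) := by
      have := continuousAt_extChartAt_symm (I := 𝓡 4) x
      have h2 : Tendsto (extChartAt (𝓡 4) x).symm (𝓝 (extChartAt (𝓡 4) x x))
          (𝓝 ((extChartAt (𝓡 4) x).symm (extChartAt (𝓡 4) x x))) := this
      rwa [extChartAt_to_inv] at h2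
    exact h1.eventually h
  have hsub : ∀ x ∈ U, x ∉ Z → Pool.Agent.N824.CS.SubAt 4 F x := by
    intro x hx hxZ
    refine ⟨(extChartAt (𝓡 4) x).symm, extChartAt (𝓡 4) x x, extChartAt_to_inv x, hLD x, ?_⟩
    have h1 : fderiv ℝ (fun z => F ((extChartAt (𝓡 4) x).symm z)) (extChartAt (𝓡 4) x x) ≠ 0 :=
      fun h => hxZ ((hF x hx).2 h)
    obtain ⟨v, hv⟩ : ∃ v, fderiv ℝ (fun z => F ((extChartAt (𝓡 4) x).symm z))
        (extChartAt (𝓡 4) x x) v ≠ 0 := by
      by_contra hcon
      push Not at hcon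
      apply h1
      ext1 v
      exact hcon v
    intro w
    refine ⟨(w / fderiv ℝ (fun z => F ((extChartAt (𝓡 4) x).symm z))
        (extChartAt (𝓡 4) x x) v) • v, ?_⟩
    rw [map_smul, smul_eq_mul]
    field_simp
  have hcs : ∀ x, x ∉ U → Pool.Agent.N824.CS.CSub 4 dist S f x := by
    intro x hx
    obtain ⟨A, κ, ε, ρ, H, ⟨hA0, hAd, hκ, hρ, hd⟩, hε, hCε, ⟨hH1, hH2⟩, hf'⟩ := hc x hx
    refine ⟨A, κ, ε, ρ, H, hA0, hAd, hκ, hε, hCε, hρ, hH1, hH2, hd, ?_⟩
    intro p hp r hr h0 hrρ ℓ hℓ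
    obtain ⟨u, m, hu, hm, h1, h2⟩ := hf' p hp r hr h0 hrρ
    exact cmu_of hu hm h1 h2 ℓ hℓ
  obtain ⟨g, Cc, hCc, hCZ, hCU, hgs, hgsub⟩ := Pool.Agent.N824.CS.globS (n := 4) f F U dist S hS
    (fun r hr => (hf r hr).1) (fun r hr => (hf r hr).2) Z hZ hZU hU (fun x hx => (hF x hx).1)
    hsub hfe hcs hU.isClosed_compl.isCompact
  have hgn : ∀ x ∈ Z, g =ᶠ[𝓝 x] F := by
    intro x hx
    have hxC : x ∉ Cc := fun h => disjoint_left.1 hCZ h hx
    filter_upwards [hCc.isClosed.isOpen_compl.mem_nhds hxC] with y hy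
    exact (hCU y hy).2
  have hcg : ∀ x, Crit g x → x ∈ Z := by
    intro x hx
    by_contra hxZ
    have h1 := (hgsub x hxZ).change (hgs x) (extChartAt_to_inv x) (hLD x)
    obtain ⟨v, hv⟩ := h1 1
    have h2 : fderiv ℝ (fun z => g ((extChartAt (𝓡 4) x).symm z)) (extChartAt (𝓡 4) x x) = 0 :=
      hx
    rw [h2] at hv
    simp at hv
  have heq : ∀ x ∈ Z, Crit g x ↔ Crit F x := by
    intro x hx
    unfold Crit loc
    rw [(hnear g x (hgn x hx)).fderiv_eq]
  refine ⟨g, fun x => hgs x, hgn, fun x => ⟨fun h => ⟨hcg x h, (heq x (hcg x h)).1 h⟩,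
    fun h => (heq x h.1).2 h.2⟩, fun hgood x hx => ?_⟩
  have hxZ := hcg x hx
  have h1 := hgood x (hZU hxZ) ((heq x hxZ).1 hx)
  have h2 : fderiv ℝ (fderiv ℝ (g ∘ (extChartAt (𝓡 4) x).symm)) (extChartAt (𝓡 4) x x) =
      fderiv ℝ (fderiv ℝ (F ∘ (extChartAt (𝓡 4) x).symm)) (extChartAt (𝓡 4) x x) :=
    ((hnear g x (hgn x hxZ)).fderiv).fderiv_eq
  have h3 : hess g x = hess F x := by
    funext v w
    show fderiv ℝ (fderiv ℝ (g ∘ (extChartAt (𝓡 4) x).symm)) (extChartAt (𝓡 4) x x) v w = _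
    rw [h2]
    rfl
  unfold GoodIndex at h1 ⊢
  rw [h3]
  exact h1

end Pool.Agent.Results.MP_f18604_gt.CoarseMorse
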